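import Pool.Agent.H62.Log.Hurwitz

/-!
# NB CC: continuous convergence along an ultrafilter, difference quotients, Weierstrass factorisation

`CC 𝒰 F f Ω`: `F n (z n) → f z₀` along `𝒰` for all `z n → z₀ ∈ Ω`.
-/

set_option autoImplicit false
set_option linter.unusedSectionVars false

open Topology Filter Metric

namespace Pool.Agent.H74.NB

variable {E : Type*} [NormedAddCommGroup E] [NormedSpace ℂ E]

/-- continuous convergence along an ultrafilter -/
def CC (𝒰 : Ultrafilter ℕ) (F : ℕ → ℂ → E) (f : ℂ → E) (Ω : Set ℂ) : Prop :=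
  ∀ z₀ ∈ Ω, ∀ z : ℕ → ℂ, Tendsto z 𝒰 (𝓝 z₀) → Tendsto (fun n => F n (z n)) 𝒰 (𝓝 (f z₀))

variable {𝒰 : Ultrafilter ℕ} {F : ℕ → ℂ → E} {f : ℂ → E} {Ω : Set ℂ}

theorem CC.mono (h : CC 𝒰 F f Ω) {Ω' : Set ℂ} (hs : Ω' ⊆ Ω) : CC 𝒰 F f Ω' := fun z₀ hz₀ => h z₀ (hs hz₀)

theorem CC.congr (h : CC 𝒰 F f Ω) {f' : ℂ → E} (he : ∀ z ∈ Ω, f z = f' z) : CC 𝒰 F f' Ω := by
  intro z₀ hz₀ z hz
  rw [← he z₀ hz₀]
  exact h z₀ hz₀ z hz

theorem CC.congr' (h : CC 𝒰 F f Ω) (hΩ : IsOpen Ω) {F' : ℕ → ℂ → E} (he : ∀ᶠ n in (𝒰 : Filter ℕ), ∀ z ∈ Ω, F n z = F' n z) :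
    CC 𝒰 F' f Ω := by
  intro z₀ hz₀ z hz
  refine (h z₀ hz₀ z hz).congr' ?_
  filter_upwards [he, hz.eventually (hΩ.mem_nhds hz₀)] with n h1 h2
  exact h1 _ h2

/-- compactness: a sequence in a compact set has a limit along the ultrafilter -/
theorem exists_lim {X : Type*} [TopologicalSpace X] {K : Set X} (hK : IsCompact K) {x : ℕ → X}
    (hx : ∀ᶠ n in (𝒰 : Filter ℕ), x n ∈ K) : ∃ x₀ ∈ K, Tendsto x 𝒰 (𝓝 x₀) := by
  obtain ⟨l, hl1, hl2⟩ := hK.ultrafilter_le_nhds (𝒰.map x) (by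
    rw [le_principal_iff]
    exact hx)
  exact ⟨l, hl1, hl2⟩

/-- an event which holds along every convergent sequence in a compact set holds uniformly -/
theorem unif_of_seq {K : Set ℂ} (hK : IsCompact K) {p : ℕ → ℂ → Prop}
    (h : ∀ z₀ ∈ K, ∀ z : ℕ → ℂ, (∀ᶠ n in (𝒰 : Filter ℕ), z n ∈ K) → Tendsto z 𝒰 (𝓝 z₀) → ∃ᶠ n in (𝒰 : Filter ℕ), p n (z n)) :
    ∀ᶠ n in (𝒰 : Filter ℕ), ∀ z ∈ K, p n z := by
  by_contra hcon
  rw [← Ultrafilter.eventually_not] at hcon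
  push Not at hcon
  choose! w hw using fun (k : ℕ) (h : ∃ z ∈ K, ¬ p k z) => h
  have hw1 : ∀ᶠ k in (𝒰 : Filter ℕ), w k ∈ K := hcon.mono fun k hk => (hw k hk).1
  have hw2 : ∀ᶠ k in (𝒰 : Filter ℕ), ¬ p k (w k) := hcon.mono fun k hk => (hw k hk).2
  obtain ⟨z₀, hz₀, hz⟩ := exists_lim hK hw1
  obtain ⟨n, h1, h2⟩ := ((h z₀ hz₀ w hw1 hz).and_eventually hw2).exists
  exact h2 h1

theorem CC.unif (h : CC 𝒰 F f Ω) (hf : ContinuousOn f Ω) (hΩ : IsOpen Ω) {K : Set ℂ} (hK : IsCompact K) (hKΩ : K ⊆ Ω) {ε : ℝ}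
    (hε : 0 < ε) : ∀ᶠ n in (𝒰 : Filter ℕ), ∀ z ∈ K, ‖F n z - f z‖ < ε := by
  refine unif_of_seq hK fun z₀ hz₀ z _ hz => ?_
  have h1 := h z₀ (hKΩ hz₀) z hz
  have h2 : Tendsto (fun n => f (z n)) 𝒰 (𝓝 (f z₀)) := ((hf.continuousAt (hΩ.mem_nhds (hKΩ hz₀))).tendsto).comp hz
  have h3 : Tendsto (fun n => ‖F n (z n) - f (z n)‖) 𝒰 (𝓝 0) := by
    have := (h1.sub h2).norm
    simpa using this
  exact (h3.eventually (gt_mem_nhds hε)).frequently

/-- values near a compact set stay away from zero -/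
theorem CC.ne_zero (h : CC 𝒰 F f Ω) (hf0 : ∀ z ∈ Ω, f z ≠ 0) {K : Set ℂ} (hK : IsCompact K) (hKΩ : K ⊆ Ω) :
    ∀ᶠ n in (𝒰 : Filter ℕ), ∀ z ∈ K, F n z ≠ 0 := by
  refine unif_of_seq hK fun z₀ hz₀ z _ hz => ?_
  exact ((h z₀ (hKΩ hz₀) z hz).eventually_ne (hf0 z₀ (hKΩ hz₀))).frequently

/-- the maximum principle: convergence on spheres gives convergence inside -/
theorem CC.of_sphere [CompleteSpace E] {w : ℂ} {r : ℝ} (hF : ∀ᶠ n in (𝒰 : Filter ℕ), DifferentiableOn ℂ (F n) (ball w r))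
    (hf : DifferentiableOn ℂ f (ball w r))
    (hs : ∀ s, 0 < s → s < r → ∀ z₀ ∈ sphere w s, ∀ z : ℕ → ℂ, (∀ᶠ n in (𝒰 : Filter ℕ), z n ∈ sphere w s) → Tendsto z 𝒰 (𝓝 z₀) →
      Tendsto (fun n => F n (z n)) 𝒰 (𝓝 (f z₀))) : CC 𝒰 F f (ball w r) := by
  intro z₀ hz₀ z hz
  have hr : 0 < r := pos_of_mem_ball hz₀
  obtain ⟨s, hs1, hs2⟩ := exists_between (show max (dist z₀ w) 0 < r from max_lt hz₀ hr)
  have hs0 : 0 < s := (le_max_right _ _).trans_lt hs1
  have hzs : z₀ ∈ ball w s := (le_max_left _ _).trans_lt hs1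
  have hsub : closedBall w s ⊆ ball w r := closedBall_subset_ball hs2
  have hD : ∀ᶠ n in (𝒰 : Filter ℕ), DifferentiableOn ℂ (fun z => F n z - f z) (ball w r) := hF.mono fun n hn => hn.sub hf
  have hz2 : Tendsto (fun n => F n (z n) - f (z n)) 𝒰 (𝓝 0) := by
    rw [NormedAddGroup.tendsto_nhds_zero]
    intro ε hε
    have h1 : ∀ᶠ n in (𝒰 : Filter ℕ), ∀ z ∈ sphere w s, ‖F n z - f z‖ < ε / 2 := by
      refine unif_of_seq (isCompact_sphere w s) fun y₀ hy₀ y hy1 hy2 => ?_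
      have h2 := hs s hs0 hs2 y₀ hy₀ y hy1 hy2
      have hy₀' : y₀ ∈ ball w r := hsub (sphere_subset_closedBall hy₀)
      have h3 : Tendsto (fun n => f (y n)) 𝒰 (𝓝 (f y₀)) :=
        ((hf.continuousOn.continuousAt (isOpen_ball.mem_nhds hy₀')).tendsto).comp hy2
      have h4 : Tendsto (fun n => ‖F n (y n) - f (y n)‖) 𝒰 (𝓝 0) := by
        have := (h2.sub h3).norm
        simpa using this
      exact (h4.eventually (gt_mem_nhds (half_pos hε))).frequently
    filter_upwards [h1, hD, hz.eventually (isOpen_ball.mem_nhds hzs)] with n h2 h3 h4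
    have h5 : DiffContOnCl ℂ (fun z => F n z - f z) (ball w s) :=
      (h3.mono (closure_ball_subset_closedBall.trans hsub)).diffContOnCl
    have h6 := Complex.norm_le_of_forall_mem_frontier_norm_le isBounded_ball h5 (C := ε / 2) (by
      intro y hy
      rw [frontier_ball w hs0.ne'] at hy
      exact (h2 y hy).le) (subset_closure h4)
    linarith
  have h7 : Tendsto (fun n => f (z n)) 𝒰 (𝓝 (f z₀)) :=
    ((hf.continuousOn.continuousAt (isOpen_ball.mem_nhds hz₀)).tendsto).comp hz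
  have := hz2.add h7
  simpa using this

/-- difference quotients converge -/
theorem CC.dslope [CompleteSpace E] {w : ℂ} {r : ℝ} (hF : ∀ᶠ n in (𝒰 : Filter ℕ), DifferentiableOn ℂ (F n) (ball w r))
    (hf : DifferentiableOn ℂ f (ball w r)) (h : CC 𝒰 F f (ball w r)) {a : ℕ → ℂ} (ha : Tendsto a 𝒰 (𝓝 w)) :
    CC 𝒰 (fun n => dslope (F n) (a n)) (dslope f w) (ball w r) := by
  rcases le_or_gt r 0 with hr | hr
  · intro z₀ hz₀
    exact absurd (pos_of_mem_ball hz₀) (not_lt.2 hr)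
  have hwr : ball w r ∈ 𝓝 w := ball_mem_nhds w hr
  refine CC.of_sphere ?_ ((Complex.differentiableOn_dslope hwr).2 hf) ?_
  · filter_upwards [hF, ha.eventually (isOpen_ball.mem_nhds (mem_ball_self hr))] with n h1 h2
    exact (Complex.differentiableOn_dslope (isOpen_ball.mem_nhds h2)).2 h1
  · intro s hs0 hsr z₀ hz₀ z hz1 hz2
    have hz0 : z₀ ≠ w := by
      rintro rfl
      simp [hs0.ne] at hz₀
    have hz₀' : z₀ ∈ ball w r := closedBall_subset_ball hsr (sphere_subset_closedBall hz₀)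
    have h1 := h z₀ hz₀' z hz2
    have h2 := h w (mem_ball_self hr) a ha
    have h3 : Tendsto (fun n => (z n - a n)⁻¹ • (F n (z n) - F n (a n))) 𝒰 (𝓝 ((z₀ - w)⁻¹ • (f z₀ - f w))) :=
      ((hz2.sub ha).inv₀ (sub_ne_zero.2 hz0)).smul (h1.sub h2)
    rw [dslope_of_ne _ hz0, slope_def_module]
    refine h3.congr' ?_
    have h4 : ∀ᶠ n in (𝒰 : Filter ℕ), z n - a n ≠ 0 := (hz2.sub ha).eventually_ne (sub_ne_zero.2 hz0)
    filter_upwards [h4] with n h5
    rw [dslope_of_ne _ (sub_ne_zero.1 h5), slope_def_module]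

theorem dslope_pow_smul [CompleteSpace E] {w : ℂ} {g : ℂ → E} (hg : DifferentiableAt ℂ g w) (M : ℕ) :
    dslope (fun z => (z - w) ^ (M + 1) • g z) w = fun z => (z - w) ^ M • g z := by
  have h1 : (fun z => (z - w) ^ (M + 1) • g z) = fun z => (z - w) • ((z - w) ^ M • g z) := by
    funext z
    rw [smul_smul, ← pow_succ']
  have hd : HasDerivAt (fun z => (z - w) • ((z - w) ^ M • g z)) ((w - w) ^ M • g w) w := by
    have h2 : DifferentiableAt ℂ (fun z => (z - w) ^ M • g z) w := by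
      exact DifferentiableAt.smul (by fun_prop) hg
    have h3 : HasDerivAt (fun z => (z - w) • ((z - w) ^ M • g z))
        ((w - w) • deriv (fun z => (z - w) ^ M • g z) w + (1 : ℂ) • ((w - w) ^ M • g w)) w :=
      ((hasDerivAt_id w).sub_const w).smul h2.hasDerivAt
    rwa [sub_self, zero_smul, zero_add, one_smul, ← sub_self w] at h3
  funext z
  by_cases hz : z = w
  · subst hz
    rw [h1, dslope_same, hd.deriv]
  · rw [dslope_of_ne _ hz, slope_def_module]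
    simp only [sub_self, ne_eq, Nat.add_eq_zero_iff, one_ne_zero, and_false, not_false_eq_true, zero_pow, zero_smul, sub_zero]
    rw [smul_smul, pow_succ', ← mul_assoc, inv_mul_cancel₀ (sub_ne_zero.2 hz), one_mul]

/-- Hurwitz: a zero of the limit is a limit of zeros -/
theorem exists_zero {w : ℂ} {r : ℝ} (hr : 0 < r) {h : ℕ → ℂ → ℂ} {ψ : ℂ → ℂ}
    (hd : ∀ᶠ n in (𝒰 : Filter ℕ), DifferentiableOn ℂ (h n) (ball w r)) (hψ : DifferentiableOn ℂ ψ (ball w r)) (hc : CC 𝒰 h ψ (ball w r))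
    (h0 : ψ w = 0) (h1 : ∃ᶠ z in 𝓝 w, ψ z ≠ 0) :
    ∃ a : ℕ → ℂ, Tendsto a 𝒰 (𝓝 w) ∧ ∀ᶠ n in (𝒰 : Filter ℕ), h n (a n) = 0 := by
  have hev : ∀ ε : ℝ, 0 < ε → ε ≤ r → ∀ᶠ n in (𝒰 : Filter ℕ), ∃ z ∈ ball w ε, h n z = 0 := by
    intro ε hε hεr
    by_contra hcon
    rw [← Ultrafilter.eventually_not] at hcon
    push Not at hcon
    have hsub : ball w ε ⊆ ball w r := ball_subset_ball hεr
    rcases Pool.Agent.H62.Log.hurwitz 𝒰 (hd.mono fun n hn => hn.mono hsub) hcon (hψ.mono hsub)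
      (fun z z₀ hz₀ hz => hc z₀ (hsub hz₀) z hz) with h2 | h2
    · obtain ⟨z, hz1, hz2⟩ := (h1.and_eventually (ball_mem_nhds w hε)).exists
      exact hz1 (h2 z hz2)
    · exact h2 w (mem_ball_self hε) h0
  have hmin : ∀ n : ℕ, DifferentiableOn ℂ (h n) (ball w r) → (∃ z ∈ ball w (r / 2), h n z = 0) →
      ∃ z ∈ closedBall w (r / 2), h n z = 0 ∧ ∀ y ∈ closedBall w (r / 2), h n y = 0 → dist z w ≤ dist y w := by
    intro n hn hz
    have hK : IsCompact {z | z ∈ closedBall w (r / 2) ∧ h n z = 0} := by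
      have h3 : ContinuousOn (h n) (closedBall w (r / 2)) :=
        hn.continuousOn.mono (closedBall_subset_ball (by linarith))
      have h4 : IsClosed (closedBall w (r / 2) ∩ h n ⁻¹' {0}) := h3.preimage_isClosed_of_isClosed isClosed_closedBall isClosed_singleton
      exact (isCompact_closedBall w (r / 2)).inter_right h4 |>.of_isClosed_subset h4 (fun z hz => ⟨hz.1, hz⟩)
    obtain ⟨z, hz1, hz2⟩ := hz
    obtain ⟨y, hy1, hy2⟩ := hK.exists_isMinOn ⟨z, ball_subset_closedBall hz1, hz2⟩ (f := fun z => dist z w)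
      (continuous_id.dist continuous_const).continuousOn
    exact ⟨y, hy1.1, hy1.2, fun x hx1 hx2 => hy2 ⟨hx1, hx2⟩⟩
  have hgood : ∀ᶠ n in (𝒰 : Filter ℕ), ∃ z ∈ closedBall w (r / 2), h n z = 0 ∧
      ∀ y ∈ closedBall w (r / 2), h n y = 0 → dist z w ≤ dist y w := by
    filter_upwards [hd, hev (r / 2) (by positivity) (by linarith)] with n h2 h3
    exact hmin n h2 h3
  choose! a ha using fun (n : ℕ) (h : ∃ z ∈ closedBall w (r / 2), h n z = 0 ∧
    ∀ y ∈ closedBall w (r / 2), h n y = 0 → dist z w ≤ dist y w) => h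
  refine ⟨a, ?_, hgood.mono fun n hn => (ha n hn).2.1⟩
  rw [Metric.tendsto_nhds]
  intro ε hε
  filter_upwards [hgood, hev (min ε (r / 2)) (by positivity) ((min_le_right _ _).trans (by linarith))] with n h2 h3
  obtain ⟨z, hz1, hz2⟩ := h3
  have h4 : dist z w < min ε (r / 2) := hz1
  have h5 := (ha n h2).2.2 z (mem_closedBall.2 ((h4.trans_le (min_le_right _ _)).le)) hz2
  exact h5.trans_lt (h4.trans_le (min_le_left _ _))

/-- **Weierstrass factorisation along an ultrafilter.** -/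
theorem weier {w : ℂ} {r : ℝ} (hr : 0 < r) {k : ℂ → ℂ} (hk : DifferentiableOn ℂ k (ball w r)) (hk0 : k w ≠ 0) :
    ∀ (M : ℕ) {h : ℕ → ℂ → ℂ}, (∀ᶠ n in (𝒰 : Filter ℕ), DifferentiableOn ℂ (h n) (ball w r)) →
      CC 𝒰 h (fun z => (z - w) ^ M * k z) (ball w r) →
      ∃ (a : ℕ → ℕ → ℂ) (q : ℕ → ℂ → ℂ), (∀ i, Tendsto (a i) 𝒰 (𝓝 w)) ∧
        (∀ᶠ n in (𝒰 : Filter ℕ), DifferentiableOn ℂ (q n) (ball w r)) ∧
        (∀ᶠ n in (𝒰 : Filter ℕ), ∀ z, h n z = (∏ i ∈ Finset.range M, (z - a i n)) * q n z) ∧ CC 𝒰 q k (ball w r) := by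
  intro M
  induction M with
  | zero =>
    intro h hd hc
    exact ⟨fun _ _ => w, h, fun _ => tendsto_const_nhds, hd, Eventually.of_forall fun n z => by simp, hc.congr fun z _ => by simp⟩
  | succ M ih =>
    intro h hd hc
    have hwr : ball w r ∈ 𝓝 w := ball_mem_nhds w hr
    have hψ : DifferentiableOn ℂ (fun z => (z - w) ^ (M + 1) * k z) (ball w r) := by
      exact DifferentiableOn.mul (by fun_prop) hk
    obtain ⟨a, ha1, ha2⟩ := exists_zero hr hd hψ hc (by simp) (by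
      have h1 : ∀ᶠ z in 𝓝[≠] w, z ≠ w ∧ k z ≠ 0 :=
        (eventually_mem_nhdsWithin.mono fun z hz => hz).and
          (nhdsWithin_le_nhds ((hk.continuousOn.continuousAt hwr).eventually_ne hk0))
      have h2 : ∀ᶠ z in 𝓝[≠] w, (z - w) ^ (M + 1) * k z ≠ 0 :=
        h1.mono fun z hz => mul_ne_zero (pow_ne_zero _ (sub_ne_zero.2 hz.1)) hz.2
      exact h2.frequently.filter_mono nhdsWithin_le_nhds)
    have hkd : DifferentiableAt ℂ k w := hk.differentiableAt hwr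
    have hc' : CC 𝒰 (fun n => _root_.dslope (h n) (a n)) (fun z => (z - w) ^ M * k z) (ball w r) := by
      refine (CC.dslope hd hψ hc ha1).congr fun z _ => ?_
      have := dslope_pow_smul (E := ℂ) hkd M
      simp only [smul_eq_mul] at this
      rw [this]
    have hd' : ∀ᶠ n in (𝒰 : Filter ℕ), DifferentiableOn ℂ (_root_.dslope (h n) (a n)) (ball w r) := by
      filter_upwards [hd, ha1.eventually (isOpen_ball.mem_nhds (mem_ball_self hr))] with n h1 h2
      exact (Complex.differentiableOn_dslope (isOpen_ball.mem_nhds h2)).2 h1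
    obtain ⟨b, q, hb, hq1, hq2, hq3⟩ := ih hd' hc'
    refine ⟨fun i => if i = M then a else b i, q, ?_, hq1, ?_, hq3⟩
    · intro i
      by_cases hi : i = M
      · simpa [hi] using ha1
      · simpa [hi] using hb i
    · filter_upwards [hq2, ha2] with n h1 h2 z
      have h3 : (z - a n) * _root_.dslope (h n) (a n) z = h n z := by
        have := sub_smul_dslope (h n) (a n) z
        rw [smul_eq_mul, h2, sub_zero] at this
        exact this
      rw [Finset.prod_range_succ, ← h3, h1 z]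
      have h4 : ∏ i ∈ Finset.range M, (z - (fun i => if i = M then a else b i) i n) = ∏ i ∈ Finset.range M, (z - b i n) := by
        refine Finset.prod_congr rfl fun i hi => ?_
        have : i ≠ M := (Finset.mem_range.1 hi).ne
        simp [this]
      rw [h4]
      simp
      ring

end Pool.Agent.H74.NB
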