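import Pool.Agent.H74.NB.Dec

/-!
# NB Child: the limit of the rescaling is `c • K`, `K` a polynomial curve; the roots of `c` are the children
-/

set_option autoImplicit false
set_option linter.unusedSectionVars false

open Topology Filter Metric Polynomial

namespace Pool.Agent.H74.NB

variable {N : ℕ}

/-- the point of the cone given by a vector of polynomials -/
noncomputable def vec (K : Fin (N + 1) → ℂ[X]) (z : ℂ) : EuclideanSpace ℂ (Fin (N + 1)) := WithLp.toLp 2 fun i => (K i).eval z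

@[simp] theorem vec_apply (K : Fin (N + 1) → ℂ[X]) (z : ℂ) (i : Fin (N + 1)) : vec K z i = (K i).eval z := rfl

theorem vec_differentiable (K : Fin (N + 1) → ℂ[X]) : Differentiable ℂ (vec K) := by
  rw [differentiable_piLp]
  intro i
  exact (K i).differentiable

theorem vec_ne_zero {K : Fin (N + 1) → ℂ[X]} {z : ℂ} {i : Fin (N + 1)} (h : (K i).eval z ≠ 0) : vec K z ≠ 0 := by
  intro h1
  exact h (by rw [← vec_apply, h1]; rfl)

/-- a vector of polynomials is the product of a monic polynomial and a vector of polynomials without common zero -/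
theorem exists_factor {ι : Type} (P : ι → ℂ[X]) (h0 : ∃ i, P i ≠ 0) :
    ∃ (c : ℂ[X]) (K : ι → ℂ[X]), c.Monic ∧ (∀ i, P i = c * K i) ∧ ∀ a : ℂ, ∃ i, (K i).eval a ≠ 0 := by
  set I : Ideal ℂ[X] := Ideal.span (Set.range P) with hI
  set g : ℂ[X] := Submodule.IsPrincipal.generator I with hg
  have hgI : g ∈ I := Submodule.IsPrincipal.generator_mem I
  have hdiv : ∀ i, g ∣ P i := fun i =>
    (Submodule.IsPrincipal.mem_iff_generator_dvd I).1 (Ideal.subset_span (Set.mem_range_self i))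
  have hg0 : g ≠ 0 := by
    rintro h1
    obtain ⟨i, hi⟩ := h0
    exact hi (zero_dvd_iff.1 (h1 ▸ hdiv i))
  have hass : Associated (normalize g) g := normalize_associated g
  have hdiv' : ∀ i, normalize g ∣ P i := fun i => hass.dvd.trans (hdiv i)
  choose K hK using hdiv'
  have hm : (normalize g).Monic := Polynomial.monic_normalize hg0
  refine ⟨normalize g, K, hm, hK, fun a => ?_⟩
  by_contra hcon
  push Not at hcon
  have h1 : ∀ i, normalize g * (X - C a) ∣ P i := fun i => by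
    rw [hK i]
    exact mul_dvd_mul_left _ (Polynomial.dvd_iff_isRoot.2 (hcon i))
  have h2 : normalize g * (X - C a) ∣ g := by
    have h3 : I ≤ Ideal.span {normalize g * (X - C a)} := by
      rw [hI, Ideal.span_le]
      rintro _ ⟨i, rfl⟩
      exact Ideal.mem_span_singleton.2 (h1 i)
    exact Ideal.mem_span_singleton.1 (h3 hgI)
  have h3 : normalize g * (X - C a) ∣ normalize g * 1 := by
    rw [mul_one]
    exact h2.trans hass.symm.dvd
  have h4 : X - C a ∣ (1 : ℂ[X]) := (mul_dvd_mul_iff_left hm.ne_zero).1 h3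
  exact (Polynomial.not_isUnit_X_sub_C a) (isUnit_of_dvd_one h4)

variable {𝒰 : Ultrafilter ℕ}

theorem ev_ball {b : ℕ → ℂ} {ρ : ℕ → ℝ} {w : ℂ} {r : ℝ} (hr : 0 < r) (hb : Tendsto b 𝒰 (𝓝 w)) (hρ : Tendsto ρ 𝒰 (𝓝 0)) (R : ℝ) :
    ∀ᶠ n in (𝒰 : Filter ℕ), ∀ ζ ∈ closedBall (0 : ℂ) R, b n + ρ n * ζ ∈ ball w r := by
  refine unif_of_seq (isCompact_closedBall 0 R) fun ζ₀ _ ζ _ hζ => ?_
  have h1 : Tendsto (fun n => b n + ρ n * ζ n) 𝒰 (𝓝 (w + (0 : ℂ) * ζ₀)) :=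
    hb.add (((Complex.continuous_ofReal.tendsto' 0 0 (by simp)).comp hρ).mul hζ)
  rw [zero_mul, add_zero] at h1
  exact (h1.eventually (ball_mem_nhds w hr)).frequently

/-- **The rescaling at a bubble point, with its children and the neck.** -/
theorem dec_child_neck {Φ : ℕ → ℂ → EuclideanSpace ℂ (Fin (N + 1))} {w : ℂ} {M : ℕ} {G : ℂ → EuclideanSpace ℂ (Fin (N + 1))} {r : ℝ}
    (h : Obj 𝒰 Φ w (M + 1) G r) :
    ∃ (b : ℕ → ℂ) (ρ : ℕ → ℝ) (c : ℂ[X]) (K : Fin (N + 1) → ℂ[X]) (d : ℕ), Tendsto b 𝒰 (𝓝 w) ∧ (∀ᶠ n in (𝒰 : Filter ℕ), 0 < ρ n) ∧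
      Tendsto ρ 𝒰 (𝓝 0) ∧ c.Monic ∧ c.natDegree + d = M + 1 ∧ (∀ i, (K i).natDegree ≤ d) ∧ (∀ i, (K i).coeff d = G w i) ∧
      (∀ a, vec K a ≠ 0) ∧ (∀ a, c.rootMultiplicity a < M + 1) ∧
      CC 𝒰 (fun n ζ => ((ρ n : ℂ) ^ (M + 1))⁻¹ • Φ n (b n + ρ n * ζ)) (fun ζ => c.eval ζ • vec K ζ) Set.univ ∧
      (∀ R : ℝ, ∀ᶠ n in (𝒰 : Filter ℕ), ∀ ζ ∈ closedBall (0 : ℂ) R, b n + ρ n * ζ ∈ ball w r) ∧
      (∀ a, ∃ c' : ℂ[X], c = (X - C a) ^ c.rootMultiplicity a * c' ∧ c'.eval a ≠ 0 ∧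
        Obj 𝒰 (fun n ζ => ((ρ n : ℂ) ^ (M + 1))⁻¹ • Φ n (b n + ρ n * ζ)) a (c.rootMultiplicity a) (fun ζ => c'.eval ζ • vec K ζ) 1) ∧
      ∀ ε : ℝ, 0 < ε → ∃ R s : ℝ, 0 < R ∧ 0 < s ∧ s ≤ r ∧ ∀ᶠ n in (𝒰 : Filter ℕ), ∀ z ∈ ball w s, R * ρ n ≤ ‖z - b n‖ →
        ∃ l : ℂ, l ≠ 0 ∧ ‖l • Φ n z - G w‖ < ε := by
  obtain ⟨b, ρ, α, γ, hb, hρp, hρt, hcc, hne, hneck⟩ := dec_neck h
  set P : Fin (N + 1) → ℂ[X] := fun i => ∑ j ∈ Finset.range (M + 1), (∏ k ∈ Finset.range j, (X - C (α k))) * C (γ j i) +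
    (∏ k ∈ Finset.range (M + 1), (X - C (α k))) * C (G w i) with hP
  have hPe : ∀ ζ : ℂ, vec P ζ = ∑ j ∈ Finset.range (M + 1), (∏ i ∈ Finset.range j, (ζ - α i)) • γ j +
      (∏ i ∈ Finset.range (M + 1), (ζ - α i)) • G w := by
    intro ζ
    ext i
    rw [vec_apply, hP]
    simp [Polynomial.eval_finsetSum, Polynomial.eval_prod]
  have hprod : ∀ j, (∏ k ∈ Finset.range j, (X - C (α k))).Monic ∧ (∏ k ∈ Finset.range j, (X - C (α k))).natDegree = j := by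
    intro j
    refine ⟨Polynomial.monic_prod_of_monic _ _ fun k _ => Polynomial.monic_X_sub_C _, ?_⟩
    rw [Polynomial.natDegree_prod_of_monic _ _ fun k _ => Polynomial.monic_X_sub_C _]
    simp
  have hlow : ∀ i, (∑ j ∈ Finset.range (M + 1), (∏ k ∈ Finset.range j, (X - C (α k))) * C (γ j i)).natDegree ≤ M := by
    intro i
    refine Polynomial.natDegree_sum_le_of_forall_le _ _ fun j hj => ?_
    refine (Polynomial.natDegree_mul_C_le _ _).trans ?_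
    rw [(hprod j).2]
    exact Nat.le_of_lt_succ (Finset.mem_range.1 hj)
  have hdeg : ∀ i, (P i).natDegree ≤ M + 1 := by
    intro i
    refine (Polynomial.natDegree_add_le _ _).trans (max_le ((hlow i).trans (Nat.le_succ M)) ?_)
    refine (Polynomial.natDegree_mul_C_le _ _).trans ?_
    rw [(hprod (M + 1)).2]
  have hcoef : ∀ i, (P i).coeff (M + 1) = G w i := by
    intro i
    rw [hP]
    simp only [Polynomial.coeff_add]
    rw [Polynomial.coeff_eq_zero_of_natDegree_lt (Nat.lt_succ_of_le (hlow i)), zero_add, Polynomial.coeff_mul_C]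
    have h1 := (hprod (M + 1)).1.coeff_natDegree
    rw [(hprod (M + 1)).2] at h1
    rw [h1, one_mul]
  obtain ⟨i₀, hi₀⟩ : ∃ i, G w i ≠ 0 := by
    by_contra hcon
    push Not at hcon
    exact h.nzG (by ext i; simpa using hcon i)
  have hPi₀ : P i₀ ≠ 0 := by
    intro h1
    have h2 := hcoef i₀
    rw [h1, Polynomial.coeff_zero] at h2
    exact hi₀ h2.symm
  obtain ⟨c, K, hcm, hcK, hK⟩ := exists_factor P ⟨i₀, hPi₀⟩
  have hKi₀ : K i₀ ≠ 0 := by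
    rintro h1
    exact hPi₀ (by rw [hcK, h1, mul_zero])
  have hcd : c.natDegree ≤ M + 1 := by
    have h1 := hdeg i₀
    rw [hcK i₀, Polynomial.natDegree_mul hcm.ne_zero hKi₀] at h1
    omega
  obtain ⟨d, hd⟩ : ∃ d, c.natDegree + d = M + 1 := ⟨M + 1 - c.natDegree, by omega⟩
  have hKd : ∀ i, (K i).natDegree ≤ d := by
    intro i
    by_cases h1 : K i = 0
    · rw [h1]
      simp
    · have h2 := hdeg i
      rw [hcK i, Polynomial.natDegree_mul hcm.ne_zero h1] at h2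
      omega
  have hKc : ∀ i, (K i).coeff d = G w i := by
    intro i
    have h1 := hcoef i
    rw [hcK i, ← hd, Polynomial.coeff_mul_add_eq_of_natDegree_le le_rfl (hKd i), hcm.coeff_natDegree, one_mul] at h1
    exact h1
  have hveq : ∀ ζ, vec P ζ = c.eval ζ • vec K ζ := by
    intro ζ
    ext i
    rw [vec_apply, hcK i, Polynomial.eval_mul]
    rfl
  have hmult : ∀ a, c.rootMultiplicity a < M + 1 := by
    intro a
    by_contra hcon
    push Not at hcon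
    have h1 : (X - C a) ^ (M + 1) ∣ c := (Polynomial.le_rootMultiplicity_iff hcm.ne_zero).1 hcon
    have h2 : (X - C a) ^ (M + 1) = c := by
      refine (Polynomial.eq_of_monic_of_dvd_of_natDegree_le ((Polynomial.monic_X_sub_C a).pow _) hcm h1 ?_).symm
      rw [Polynomial.natDegree_pow, Polynomial.natDegree_X_sub_C, mul_one]
      exact hcd
    have h3 : d = 0 := by
      rw [← h2, Polynomial.natDegree_pow, Polynomial.natDegree_X_sub_C, mul_one] at hd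
      omega
    refine hne ⟨a, fun ζ => ?_⟩
    rw [← hPe ζ, hveq ζ, ← h2, Polynomial.eval_pow, Polynomial.eval_sub, Polynomial.eval_X, Polynomial.eval_C]
    congr 1
    ext i
    rw [vec_apply, Polynomial.eq_C_of_natDegree_le_zero ((hKd i).trans h3.le), Polynomial.eval_C, ← hKc i, h3]
  have hcc' : CC 𝒰 (fun n ζ => ((ρ n : ℂ) ^ (M + 1))⁻¹ • Φ n (b n + ρ n * ζ)) (fun ζ => c.eval ζ • vec K ζ) Set.univ :=
    hcc.congr fun ζ _ => by rw [← hPe ζ, hveq ζ]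
  have hball := ev_ball h.pos hb hρt
  have hvK : ∀ a, vec K a ≠ 0 := fun a => by
    obtain ⟨i, hi⟩ := hK a
    exact vec_ne_zero hi
  refine ⟨b, ρ, c, K, d, hb, hρp, hρt, hcm, hd, hKd, hKc, hvK, hmult, hcc', hball, fun a => ?_, hneck⟩
  obtain ⟨c', hc', hc'a⟩ := Polynomial.exists_eq_pow_rootMultiplicity_mul_and_not_dvd c hcm.ne_zero a
  have hc'0 : c'.eval a ≠ 0 := fun h1 => hc'a (Polynomial.dvd_iff_isRoot.2 h1)
  have hsub : ball a 1 ⊆ closedBall (0 : ℂ) (‖a‖ + 1) := by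
    intro ζ hζ
    rw [mem_closedBall_zero_iff]
    rw [mem_ball_iff_norm] at hζ
    calc ‖ζ‖ = ‖a + (ζ - a)‖ := by ring_nf
      _ ≤ ‖a‖ + ‖ζ - a‖ := norm_add_le _ _
      _ ≤ ‖a‖ + 1 := by linarith
  refine ⟨c', hc', hc'0, ⟨one_pos, ?_, ?_, ?_, ?_, smul_ne_zero hc'0 (hvK a)⟩⟩
  · filter_upwards [h.hol, hball (‖a‖ + 1)] with n h1 h2
    have h3 : DifferentiableOn ℂ (fun ζ => Φ n (b n + ρ n * ζ)) (ball a 1) :=
      h1.comp (f := fun ζ => b n + ρ n * ζ) (by fun_prop) fun ζ hζ => h2 ζ (hsub hζ)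
    exact h3.const_smul (((ρ n : ℂ) ^ (M + 1))⁻¹)
  · filter_upwards [h.nz, hball (‖a‖ + 1), hρp] with n h1 h2 h3 ζ hζ
    have h4 : ((ρ n : ℂ) ^ (M + 1))⁻¹ ≠ 0 := inv_ne_zero (pow_ne_zero _ (Complex.ofReal_ne_zero.2 h3.ne'))
    exact smul_ne_zero h4 (h1 _ (h2 ζ (hsub hζ)))
  · refine (hcc'.mono (Set.subset_univ _)).congr fun ζ _ => ?_
    conv_lhs => rw [hc']
    rw [Polynomial.eval_mul, Polynomial.eval_pow, Polynomial.eval_sub, Polynomial.eval_X, Polynomial.eval_C, mul_smul]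
  · exact (c'.differentiable.smul (vec_differentiable K)).differentiableOn

/-- **The rescaling at a bubble point, with its children.** -/
theorem dec_child {Φ : ℕ → ℂ → EuclideanSpace ℂ (Fin (N + 1))} {w : ℂ} {M : ℕ} {G : ℂ → EuclideanSpace ℂ (Fin (N + 1))} {r : ℝ}
    (h : Obj 𝒰 Φ w (M + 1) G r) :
    ∃ (b : ℕ → ℂ) (ρ : ℕ → ℝ) (c : ℂ[X]) (K : Fin (N + 1) → ℂ[X]) (d : ℕ), Tendsto b 𝒰 (𝓝 w) ∧ (∀ᶠ n in (𝒰 : Filter ℕ), 0 < ρ n) ∧
      Tendsto ρ 𝒰 (𝓝 0) ∧ c.Monic ∧ c.natDegree + d = M + 1 ∧ (∀ i, (K i).natDegree ≤ d) ∧ (∀ i, (K i).coeff d = G w i) ∧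
      (∀ a, vec K a ≠ 0) ∧ (∀ a, c.rootMultiplicity a < M + 1) ∧
      CC 𝒰 (fun n ζ => ((ρ n : ℂ) ^ (M + 1))⁻¹ • Φ n (b n + ρ n * ζ)) (fun ζ => c.eval ζ • vec K ζ) Set.univ ∧
      (∀ R : ℝ, ∀ᶠ n in (𝒰 : Filter ℕ), ∀ ζ ∈ closedBall (0 : ℂ) R, b n + ρ n * ζ ∈ ball w r) ∧
      ∀ a, ∃ c' : ℂ[X], c = (X - C a) ^ c.rootMultiplicity a * c' ∧ c'.eval a ≠ 0 ∧
        Obj 𝒰 (fun n ζ => ((ρ n : ℂ) ^ (M + 1))⁻¹ • Φ n (b n + ρ n * ζ)) a (c.rootMultiplicity a) (fun ζ => c'.eval ζ • vec K ζ) 1 := by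
  obtain ⟨b, ρ, c, K, d, h1, h2, h3, h4, h5, h6, h7, h8, h9, h10, h11, h12, -⟩ := dec_child_neck h
  exact ⟨b, ρ, c, K, d, h1, h2, h3, h4, h5, h6, h7, h8, h9, h10, h11, h12⟩

end Pool.Agent.H74.NB
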