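import Pool.Agent.H74.NB.CC

/-!
# NB Dec: the rescaling at a bubble point

`Obj 𝒰 Φ w M G r`: holomorphic vector functions `Φ n` without zeros converge to `(z - w) ^ M • G z`, `G w ≠ 0`.
If `M ≥ 1`, there are centres `b n → w` and radii `ρ n → 0` such that `ρ n ^ (-M) • Φ n (b n + ρ n ζ)` converges on all of `ℂ` to a vector of
polynomials of degree `M` with leading coefficient `G w`, which is not `(ζ - β) ^ M • G w`.
-/

set_option autoImplicit false
set_option linter.unusedSectionVars false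

open Topology Filter Metric

namespace Pool.Agent.H74.NB

variable {E : Type*} [NormedAddCommGroup E] [NormedSpace ℂ E]

/-- vector functions without zeros whose limit has a zero of order `M` at `w` -/
structure Obj (𝒰 : Ultrafilter ℕ) (Φ : ℕ → ℂ → E) (w : ℂ) (M : ℕ) (G : ℂ → E) (r : ℝ) : Prop where
  pos : 0 < r
  hol : ∀ᶠ n in (𝒰 : Filter ℕ), DifferentiableOn ℂ (Φ n) (ball w r)
  nz : ∀ᶠ n in (𝒰 : Filter ℕ), ∀ z ∈ ball w r, Φ n z ≠ 0
  cc : CC 𝒰 Φ (fun z => (z - w) ^ M • G z) (ball w r)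
  holG : DifferentiableOn ℂ G (ball w r)
  nzG : G w ≠ 0

/-- iterated difference quotients -/
noncomputable def it (F : ℂ → E) (a : ℕ → ℂ) : ℕ → ℂ → E
  | 0 => F
  | j + 1 => _root_.dslope (it F a j) (a j)

theorem newton (F : ℂ → E) (a : ℕ → ℂ) (M : ℕ) (z : ℂ) :
    F z = ∑ j ∈ Finset.range M, (∏ i ∈ Finset.range j, (z - a i)) • it F a j (a j) + (∏ i ∈ Finset.range M, (z - a i)) • it F a M z := by
  induction M with
  | zero => simp [it]
  | succ M ih =>
    rw [Finset.sum_range_succ, Finset.prod_range_succ, mul_smul]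
    have h1 : (z - a M) • it F a (M + 1) z = it F a M z - it F a M (a M) := sub_smul_dslope (it F a M) (a M) z
    rw [h1, smul_sub, add_assoc, add_sub_cancel, ← ih]

variable [CompleteSpace E] {𝒰 : Ultrafilter ℕ}

theorem cc_it {w : ℂ} {r : ℝ} (hr : 0 < r) {M : ℕ} {F : ℕ → ℂ → E} {g : ℂ → E} {a : ℕ → ℕ → ℂ} (ha : ∀ i, Tendsto (a i) 𝒰 (𝓝 w))
    (hF : ∀ᶠ n in (𝒰 : Filter ℕ), DifferentiableOn ℂ (F n) (ball w r)) (hg : DifferentiableOn ℂ g (ball w r))
    (hc : CC 𝒰 F (fun z => (z - w) ^ M • g z) (ball w r)) :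
    ∀ j k, j + k = M → (∀ᶠ n in (𝒰 : Filter ℕ), DifferentiableOn ℂ (it (F n) (fun i => a i n) j) (ball w r)) ∧
      CC 𝒰 (fun n => it (F n) (fun i => a i n) j) (fun z => (z - w) ^ k • g z) (ball w r) := by
  intro j
  induction j with
  | zero =>
    intro k hk
    rw [zero_add] at hk
    subst hk
    exact ⟨hF, hc⟩
  | succ j ih =>
    intro k hk
    obtain ⟨h1, h2⟩ := ih (k + 1) (by omega)
    refine ⟨?_, ?_⟩
    · filter_upwards [h1, (ha j).eventually (isOpen_ball.mem_nhds (mem_ball_self hr))] with n h3 h4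
      exact (Complex.differentiableOn_dslope (isOpen_ball.mem_nhds h4)).2 h3
    · refine (CC.dslope h1 ?_ h2 (ha j)).congr fun z _ => ?_
      · exact DifferentiableOn.smul (by fun_prop) hg
      · rw [dslope_pow_smul (hg.differentiableAt (ball_mem_nhds w hr)) k]

/-- **The rescaling at a bubble point, with the neck.** -/
theorem dec_neck [ProperSpace E] {Φ : ℕ → ℂ → E} {w : ℂ} {M : ℕ} {G : ℂ → E} {r : ℝ} (h : Obj 𝒰 Φ w (M + 1) G r) :
    ∃ (b : ℕ → ℂ) (ρ : ℕ → ℝ) (α : ℕ → ℂ) (γ : ℕ → E), Tendsto b 𝒰 (𝓝 w) ∧ (∀ᶠ n in (𝒰 : Filter ℕ), 0 < ρ n) ∧ Tendsto ρ 𝒰 (𝓝 0) ∧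
      CC 𝒰 (fun n ζ => ((ρ n : ℂ) ^ (M + 1))⁻¹ • Φ n (b n + ρ n * ζ))
        (fun ζ => ∑ j ∈ Finset.range (M + 1), (∏ i ∈ Finset.range j, (ζ - α i)) • γ j + (∏ i ∈ Finset.range (M + 1), (ζ - α i)) • G w)
        Set.univ ∧
      (¬ ∃ β : ℂ, ∀ ζ : ℂ, ∑ j ∈ Finset.range (M + 1), (∏ i ∈ Finset.range j, (ζ - α i)) • γ j +
        (∏ i ∈ Finset.range (M + 1), (ζ - α i)) • G w = (ζ - β) ^ (M + 1) • G w) ∧
      ∀ ε : ℝ, 0 < ε → ∃ R s : ℝ, 0 < R ∧ 0 < s ∧ s ≤ r ∧ ∀ᶠ n in (𝒰 : Filter ℕ), ∀ z ∈ ball w s, R * ρ n ≤ ‖z - b n‖ →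
        ∃ l : ℂ, l ≠ 0 ∧ ‖l • Φ n z - G w‖ < ε := by
  obtain ⟨ℓ, hℓ⟩ : ∃ ℓ : E →L[ℂ] ℂ, ℓ (G w) = 1 := by
    obtain ⟨g, -, hg⟩ := exists_dual_vector ℂ (G w) (norm_ne_zero_iff.2 h.nzG)
    refine ⟨((‖G w‖ : ℂ))⁻¹ • g, ?_⟩
    have : ((‖G w‖ : ℂ)) ≠ 0 := by
      rw [Ne, Complex.ofReal_eq_zero, norm_eq_zero]
      exact h.nzG
    rw [smul_apply, hg, smul_eq_mul]
    exact inv_mul_cancel₀ this
  -- shrink the ball
  have hk : DifferentiableOn ℂ (fun z => ℓ (G z)) (ball w r) := ℓ.differentiable.comp_differentiableOn h.holG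
  obtain ⟨r₁, hr₁, hr₁r, hk0⟩ : ∃ r₁, 0 < r₁ ∧ r₁ ≤ r ∧ ∀ z ∈ ball w r₁, ℓ (G z) ≠ 0 := by
    have h1 : ∀ᶠ z in 𝓝 w, ℓ (G z) ≠ 0 :=
      (hk.continuousOn.continuousAt (ball_mem_nhds w h.pos)).eventually_ne (by rw [hℓ]; exact one_ne_zero)
    obtain ⟨s, hs, hs'⟩ := Metric.mem_nhds_iff.1 h1
    exact ⟨min s r, lt_min hs h.pos, min_le_right _ _, fun z hz => hs' (ball_subset_ball (min_le_left _ _) hz)⟩
  have hsub : ball w r₁ ⊆ ball w r := ball_subset_ball hr₁r
  -- Weierstrass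
  obtain ⟨a, q, ha, hq1, hq2, hq3⟩ := weier (𝒰 := 𝒰) hr₁ (hk.mono hsub) (hk0 w (mem_ball_self hr₁)) (M + 1)
    (h := fun n z => ℓ (Φ n z)) (h.hol.mono fun n hn => (ℓ.differentiable.comp_differentiableOn hn).mono hsub) (by
      intro z₀ hz₀ z hz
      have h1 := (ℓ.continuous.tendsto _).comp (h.cc z₀ (hsub hz₀) z hz)
      simpa [Function.comp_def] using h1)
  -- the normalised functions
  set r₂ : ℝ := r₁ / 2 with hr₂
  have hr₂0 : 0 < r₂ := by positivity
  have hsub2 : ball w r₂ ⊆ ball w r₁ := ball_subset_ball (by linarith)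
  have hqn : ∀ᶠ n in (𝒰 : Filter ℕ), ∀ z ∈ ball w r₂, q n z ≠ 0 := by
    have h1 := hq3.ne_zero hk0 (isCompact_closedBall w r₂) (closedBall_subset_ball (by linarith))
    exact h1.mono fun n hn z hz => hn z (ball_subset_closedBall hz)
  set F : ℕ → ℂ → E := fun n z => (q n z)⁻¹ • Φ n z with hFdef
  set g : ℂ → E := fun z => (ℓ (G z))⁻¹ • G z with hgdef
  have hgw : g w = G w := by simp [hgdef, hℓ]
  have hFd : ∀ᶠ n in (𝒰 : Filter ℕ), DifferentiableOn ℂ (F n) (ball w r₂) := by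
    filter_upwards [hqn, hq1, h.hol] with n h1 h2 h3
    exact ((h2.mono hsub2).inv h1).smul (h3.mono (hsub2.trans hsub))
  have hgd : DifferentiableOn ℂ g (ball w r₂) :=
    ((hk.mono (hsub2.trans hsub)).inv fun z hz => hk0 z (hsub2 hz)).smul (h.holG.mono (hsub2.trans hsub))
  have hFc : CC 𝒰 F (fun z => (z - w) ^ (M + 1) • g z) (ball w r₂) := by
    intro z₀ hz₀ z hz
    have h1 := ((hq3 z₀ (hsub2 hz₀) z hz).inv₀ (hk0 z₀ (hsub2 hz₀))).smul (h.cc z₀ (hsub (hsub2 hz₀)) z hz)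
    have h2 : (ℓ (G z₀))⁻¹ • (z₀ - w) ^ (M + 1) • G z₀ = (z₀ - w) ^ (M + 1) • g z₀ := by
      rw [hgdef, smul_comm]
    rw [h2] at h1
    exact h1
  have hit := cc_it hr₂0 ha hFd hgd hFc
  set c : ℕ → ℕ → E := fun j n => it (F n) (fun i => a i n) j (a j n) with hcdef
  have hc0 : ∀ j ∈ Finset.range (M + 1), Tendsto (c j) 𝒰 (𝓝 0) := by
    intro j hj
    have hj' := Finset.mem_range.1 hj
    obtain ⟨k, hk⟩ : ∃ k, j + (k + 1) = M + 1 := ⟨M - j, by omega⟩
    have h1 := (hit j (k + 1) hk).2 w (mem_ball_self hr₂0) (a j) (ha j)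
    simpa using h1
  have hS : CC 𝒰 (fun n => it (F n) (fun i => a i n) (M + 1)) g (ball w r₂) :=
    ((hit (M + 1) 0 (by omega)).2).congr fun z _ => by simp
  -- centre and radius
  set b : ℕ → ℂ := a 0 with hbdef
  set ρ : ℕ → ℝ := fun n => ∑ i ∈ Finset.range (M + 1), ‖a i n - b n‖ +
    ∑ j ∈ Finset.range (M + 1), ‖c j n‖ ^ (((M + 1 - j : ℕ) : ℝ)⁻¹) with hρdef
  have hρ0 : ∀ n, 0 ≤ ρ n := fun n => add_nonneg (Finset.sum_nonneg fun i _ => norm_nonneg _)
    (Finset.sum_nonneg fun j _ => Real.rpow_nonneg (norm_nonneg _) _)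
  have hle1 : ∀ n, ∀ i ∈ Finset.range (M + 1), ‖a i n - b n‖ ≤ ρ n := fun n i hi =>
    (Finset.single_le_sum (f := fun i => ‖a i n - b n‖) (fun i _ => norm_nonneg _) hi).trans
      (le_add_of_nonneg_right (Finset.sum_nonneg fun j _ => Real.rpow_nonneg (norm_nonneg _) _))
  have hle2 : ∀ n, ∀ j ∈ Finset.range (M + 1), ‖c j n‖ ^ (((M + 1 - j : ℕ) : ℝ)⁻¹) ≤ ρ n := fun n j hj =>
    (Finset.single_le_sum (f := fun j => ‖c j n‖ ^ (((M + 1 - j : ℕ) : ℝ)⁻¹)) (fun j _ => Real.rpow_nonneg (norm_nonneg _) _) hj).trans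
      (le_add_of_nonneg_left (Finset.sum_nonneg fun i _ => norm_nonneg _))
  have hpow : ∀ (x : ℝ) (j : ℕ), j ∈ Finset.range (M + 1) → 0 ≤ x → (x ^ (((M + 1 - j : ℕ) : ℝ)⁻¹)) ^ (M + 1 - j) = x := by
    intro x j hj hx
    have : M + 1 - j ≠ 0 := by
      have := Finset.mem_range.1 hj
      omega
    exact Real.rpow_inv_natCast_pow hx this
  have hρt : Tendsto ρ 𝒰 (𝓝 0) := by
    have h1 : Tendsto (fun n => ∑ i ∈ Finset.range (M + 1), ‖a i n - b n‖) 𝒰 (𝓝 0) := by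
      have : (0 : ℝ) = ∑ i ∈ Finset.range (M + 1), (0 : ℝ) := by simp
      rw [this]
      refine tendsto_finsetSum _ fun i _ => ?_
      have := ((ha i).sub (ha 0)).norm
      simpa using this
    have h2 : Tendsto (fun n => ∑ j ∈ Finset.range (M + 1), ‖c j n‖ ^ (((M + 1 - j : ℕ) : ℝ)⁻¹)) 𝒰 (𝓝 0) := by
      have : (0 : ℝ) = ∑ j ∈ Finset.range (M + 1), (0 : ℝ) := by simp
      rw [this]
      refine tendsto_finsetSum _ fun j hj => ?_
      have h3 : (0 : ℝ) < ((M + 1 - j : ℕ) : ℝ)⁻¹ := by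
        have := Finset.mem_range.1 hj
        have h4 : 0 < M + 1 - j := by omega
        positivity
      have h4 := ((hc0 j hj).norm).rpow_const (p := ((M + 1 - j : ℕ) : ℝ)⁻¹) (Or.inr h3.le)
      rw [norm_zero, Real.zero_rpow h3.ne'] at h4
      exact h4
    have := h1.add h2
    rw [add_zero] at this
    exact this
  have hbt : Tendsto b 𝒰 (𝓝 w) := ha 0
  have hbm : ∀ᶠ n in (𝒰 : Filter ℕ), b n ∈ ball w r₂ := hbt.eventually (ball_mem_nhds w hr₂0)
  have hρp : ∀ᶠ n in (𝒰 : Filter ℕ), 0 < ρ n := by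
    filter_upwards [hbm, hqn, h.nz] with n h1 h2 h3
    refine lt_of_le_of_ne (hρ0 n) fun h4 => ?_
    have h5 : ∀ j ∈ Finset.range (M + 1), c j n = 0 := by
      intro j hj
      have h6 := hle2 n j hj
      rw [← h4] at h6
      have h7 : ‖c j n‖ ^ (((M + 1 - j : ℕ) : ℝ)⁻¹) = 0 := le_antisymm h6 (Real.rpow_nonneg (norm_nonneg _) _)
      have h8 := hpow ‖c j n‖ j hj (norm_nonneg _)
      rw [h7, zero_pow (by have := Finset.mem_range.1 hj; omega)] at h8
      exact norm_eq_zero.1 h8.symm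
    have h6 := newton (F n) (fun i => a i n) (M + 1) (b n)
    have h7 : F n (b n) = 0 := by
      rw [h6, Finset.prod_range_succ', hbdef, sub_self, mul_zero, zero_smul, add_zero]
      exact Finset.sum_eq_zero fun j hj => by
        have h8 : it (F n) (fun i => a i n) j (a j n) = 0 := h5 j hj
        rw [h8, smul_zero]
    have h8 : Φ n (b n) ≠ 0 := h3 _ (hsub (hsub2 h1))
    rw [hFdef] at h7
    exact h8 ((smul_eq_zero.1 h7).resolve_left (inv_ne_zero (h2 _ h1)))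
  -- the limits of the parameters
  have hA : ∀ i ∈ Finset.range (M + 1), ∃ x : ℂ, Tendsto (fun n => (a i n - b n) / ρ n) 𝒰 (𝓝 x) := by
    intro i hi
    obtain ⟨x, -, hx⟩ := exists_lim (𝒰 := 𝒰) (isCompact_closedBall (0 : ℂ) 1) (x := fun n => (a i n - b n) / ρ n) (by
      filter_upwards [hρp] with n hn
      rw [mem_closedBall_zero_iff, norm_div, Complex.norm_real, Real.norm_of_nonneg hn.le, div_le_one hn]
      exact hle1 n i hi)
    exact ⟨x, hx⟩
  have hB : ∀ j ∈ Finset.range (M + 1), ∃ y : E, Tendsto (fun n => ((ρ n : ℂ) ^ (M + 1 - j))⁻¹ • c j n) 𝒰 (𝓝 y) := by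
    intro j hj
    obtain ⟨y, -, hy⟩ := exists_lim (𝒰 := 𝒰) (isCompact_closedBall (0 : E) 1) (x := fun n => ((ρ n : ℂ) ^ (M + 1 - j))⁻¹ • c j n) (by
      filter_upwards [hρp] with n hn
      rw [mem_closedBall_zero_iff, norm_smul, norm_inv, norm_pow, Complex.norm_real, Real.norm_of_nonneg hn.le,
        inv_mul_le_iff₀ (by positivity), mul_one]
      have h1 := hle2 n j hj
      have h2 := pow_le_pow_left₀ (Real.rpow_nonneg (norm_nonneg _) _) h1 (M + 1 - j)
      rwa [hpow _ j hj (norm_nonneg _)] at h2)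
    exact ⟨y, hy⟩
  choose! α hα using hA
  choose! γ hγ using hB
  have hone : ∑ i ∈ Finset.range (M + 1), ‖α i‖ + ∑ j ∈ Finset.range (M + 1), ‖γ j‖ ^ (((M + 1 - j : ℕ) : ℝ)⁻¹) = 1 := by
    have h1 : Tendsto (fun n => ∑ i ∈ Finset.range (M + 1), ‖(a i n - b n) / ρ n‖ +
        ∑ j ∈ Finset.range (M + 1), ‖((ρ n : ℂ) ^ (M + 1 - j))⁻¹ • c j n‖ ^ (((M + 1 - j : ℕ) : ℝ)⁻¹)) 𝒰
        (𝓝 (∑ i ∈ Finset.range (M + 1), ‖α i‖ + ∑ j ∈ Finset.range (M + 1), ‖γ j‖ ^ (((M + 1 - j : ℕ) : ℝ)⁻¹))) := by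
      refine (tendsto_finsetSum _ fun i hi => (hα i hi).norm).add (tendsto_finsetSum _ fun j hj => ?_)
      have h3 : (0 : ℝ) ≤ ((M + 1 - j : ℕ) : ℝ)⁻¹ := by positivity
      exact ((hγ j hj).norm).rpow_const (Or.inr h3)
    refine tendsto_nhds_unique h1 (Tendsto.congr' ?_ tendsto_const_nhds)
    filter_upwards [hρp] with n hn
    have h2 : ∀ i ∈ Finset.range (M + 1), ‖(a i n - b n) / ρ n‖ = ‖a i n - b n‖ / ρ n := fun i _ => by
      rw [norm_div, Complex.norm_real, Real.norm_of_nonneg hn.le]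
    have h3 : ∀ j ∈ Finset.range (M + 1), ‖((ρ n : ℂ) ^ (M + 1 - j))⁻¹ • c j n‖ ^ (((M + 1 - j : ℕ) : ℝ)⁻¹) =
        ‖c j n‖ ^ (((M + 1 - j : ℕ) : ℝ)⁻¹) / ρ n := by
      intro j hj
      have h4 : M + 1 - j ≠ 0 := by
        have := Finset.mem_range.1 hj
        omega
      rw [norm_smul, norm_inv, norm_pow, Complex.norm_real, Real.norm_of_nonneg hn.le, inv_mul_eq_div,
        Real.div_rpow (norm_nonneg _) (by positivity), Real.pow_rpow_inv_natCast hn.le h4]
    rw [Finset.sum_congr rfl h2, Finset.sum_congr rfl h3, ← Finset.sum_div, ← Finset.sum_div, ← add_div]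
    exact (div_self hn.ne').symm
  have hα0 : α 0 = 0 := by
    refine tendsto_nhds_unique (hα 0 (by simp)) (Tendsto.congr (fun n => ?_) tendsto_const_nhds)
    rw [hbdef, sub_self, zero_div]
  have hFlim : CC 𝒰 (fun n ζ => ((ρ n : ℂ) ^ (M + 1))⁻¹ • F n (b n + ρ n * ζ))
      (fun ζ => ∑ j ∈ Finset.range (M + 1), (∏ i ∈ Finset.range j, (ζ - α i)) • γ j + (∏ i ∈ Finset.range (M + 1), (ζ - α i)) • G w)
      Set.univ := by
    intro ζ₀ _ ζ hζ
    have hx : Tendsto (fun n => b n + ρ n * ζ n) 𝒰 (𝓝 w) := by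
      have h1 : Tendsto (fun n => (ρ n : ℂ) * ζ n) 𝒰 (𝓝 ((0 : ℂ) * ζ₀)) :=
        ((Complex.continuous_ofReal.tendsto' 0 0 (by simp)).comp hρt).mul hζ
      have := hbt.add h1
      simpa using this
    have h1 : Tendsto (fun n => ∑ j ∈ Finset.range (M + 1), (∏ i ∈ Finset.range j, (ζ n - (a i n - b n) / ρ n)) •
        (((ρ n : ℂ) ^ (M + 1 - j))⁻¹ • c j n) + (∏ i ∈ Finset.range (M + 1), (ζ n - (a i n - b n) / ρ n)) •
        it (F n) (fun i => a i n) (M + 1) (b n + ρ n * ζ n)) 𝒰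
        (𝓝 (∑ j ∈ Finset.range (M + 1), (∏ i ∈ Finset.range j, (ζ₀ - α i)) • γ j + (∏ i ∈ Finset.range (M + 1), (ζ₀ - α i)) • G w)) := by
      refine (tendsto_finsetSum _ fun j hj => ?_).add ?_
      · refine (tendsto_finsetProd _ fun i hi => hζ.sub (hα i ?_)).smul (hγ j hj)
        exact Finset.mem_range.2 ((Finset.mem_range.1 hi).trans (Finset.mem_range.1 hj))
      · refine (tendsto_finsetProd _ fun i hi => hζ.sub (hα i hi)).smul ?_
        have := hS w (mem_ball_self hr₂0) _ hx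
        rwa [hgw] at this
    refine h1.congr' ?_
    filter_upwards [hρp] with n hn
    have hn' : (ρ n : ℂ) ≠ 0 := by
      rw [Ne, Complex.ofReal_eq_zero]
      exact hn.ne'
    have hprod : ∀ m, ∏ i ∈ Finset.range m, (b n + ρ n * ζ n - a i n) = (ρ n : ℂ) ^ m * ∏ i ∈ Finset.range m, (ζ n - (a i n - b n) / ρ n) := by
      intro m
      induction m with
      | zero => simp
      | succ m ih =>
        rw [Finset.prod_range_succ, Finset.prod_range_succ, ih]
        field_simp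
        ring
    rw [newton (F n) (fun i => a i n) (M + 1) (b n + ρ n * ζ n), smul_add, Finset.smul_sum]
    congr 1
    · refine Finset.sum_congr rfl fun j hj => ?_
      have hj' : j ≤ M + 1 := (Finset.mem_range.1 hj).le
      have h3 : (ρ n : ℂ) ^ (M + 1) = (ρ n : ℂ) ^ j * (ρ n : ℂ) ^ (M + 1 - j) := by
        rw [← pow_add]
        congr 1
        omega
      rw [hprod j, smul_smul, smul_smul, h3]
      congr 1
      field_simp
    · rw [hprod (M + 1), smul_smul]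
      congr 1
      field_simp
  refine ⟨b, ρ, α, γ, hbt, hρp, hρt, ?_, ?_, ?_⟩
  · intro ζ₀ h0 ζ hζ
    have hx : Tendsto (fun n => b n + ρ n * ζ n) 𝒰 (𝓝 w) := by
      have h1 : Tendsto (fun n => (ρ n : ℂ) * ζ n) 𝒰 (𝓝 ((0 : ℂ) * ζ₀)) :=
        ((Complex.continuous_ofReal.tendsto' 0 0 (by simp)).comp hρt).mul hζ
      have := hbt.add h1
      simpa using this
    have h1 := (hq3 w (mem_ball_self hr₁) _ hx).smul (hFlim ζ₀ h0 ζ hζ)
    beta_reduce at h1
    rw [hℓ, one_smul] at h1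
    refine h1.congr' ?_
    filter_upwards [hqn, hx.eventually (ball_mem_nhds w hr₂0)] with n h2 h3
    rw [hFdef]
    simp only
    rw [smul_comm (q n (b n + ρ n * ζ n)), smul_smul (q n (b n + ρ n * ζ n)), mul_inv_cancel₀ (h2 _ h3), one_smul]
  · rintro ⟨β, hβ⟩
    have hW : ∀ ζ : ℂ, ∏ i ∈ Finset.range (M + 1), (ζ - α i) = (ζ - β) ^ (M + 1) := by
      intro ζ
      have hx : Tendsto (fun n => b n + ρ n * ζ) 𝒰 (𝓝 w) := by
        have h1 : Tendsto (fun n => (ρ n : ℂ) * ζ) 𝒰 (𝓝 ((0 : ℂ) * ζ)) :=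
          ((Complex.continuous_ofReal.tendsto' 0 0 (by simp)).comp hρt).mul tendsto_const_nhds
        have := hbt.add h1
        simpa using this
      have h1 := (ℓ.continuous.tendsto _).comp (hFlim ζ (Set.mem_univ _) (fun _ => ζ) tendsto_const_nhds)
      beta_reduce at h1
      rw [hβ ζ, map_smul, hℓ, smul_eq_mul, mul_one] at h1
      have h2 : Tendsto (fun n => ∏ i ∈ Finset.range (M + 1), (ζ - (a i n - b n) / ρ n)) 𝒰 (𝓝 (∏ i ∈ Finset.range (M + 1), (ζ - α i))) :=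
        tendsto_finsetProd _ fun i hi => tendsto_const_nhds.sub (hα i hi)
      refine tendsto_nhds_unique h2 (h1.congr' ?_)
      filter_upwards [hρp, hq2, hqn, hx.eventually (ball_mem_nhds w hr₂0)] with n hn h3 h4 h5
      have hn' : (ρ n : ℂ) ≠ 0 := by
        rw [Ne, Complex.ofReal_eq_zero]
        exact hn.ne'
      have hprod : ∀ m, ∏ i ∈ Finset.range m, (b n + ρ n * ζ - a i n) = (ρ n : ℂ) ^ m * ∏ i ∈ Finset.range m, (ζ - (a i n - b n) / ρ n) := by
        intro m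
        induction m with
        | zero => simp
        | succ m ih =>
          rw [Finset.prod_range_succ, Finset.prod_range_succ, ih]
          field_simp
          ring
      have h6 := h3 (b n + ρ n * ζ)
      simp only [Function.comp_apply, hFdef, map_smul, smul_eq_mul]
      rw [h6, hprod]
      field_simp [h4 _ h5]
    have hα' : ∀ i ∈ Finset.range (M + 1), α i = β := by
      intro i hi
      have h1 := hW (α i)
      rw [Finset.prod_eq_zero hi (sub_self _)] at h1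
      exact sub_eq_zero.1 (pow_eq_zero_iff (by omega) |>.1 h1.symm)
    have hβ0 : β = 0 := by
      rw [← hα' 0 (by simp), hα0]
    have hα'' : ∀ i ∈ Finset.range (M + 1), α i = 0 := fun i hi => by rw [hα' i hi, hβ0]
    have hγ0 : ∀ j ∈ Finset.range (M + 1), γ j = 0 := by
      intro j hj
      rw [SeparatingDual.eq_zero_iff_forall_dual_eq_zero (R := ℂ)]
      intro m
      have h1 : (∑ j ∈ Finset.range (M + 1), Polynomial.C (m (γ j)) * Polynomial.X ^ j : Polynomial ℂ) = 0 := by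
        refine Polynomial.funext fun ζ => ?_
        have h2 := hβ ζ
        rw [hW ζ, add_eq_right] at h2
        have h3 := congrArg m h2
        rw [map_sum, map_zero] at h3
        rw [Polynomial.eval_finsetSum, Polynomial.eval_zero, ← h3]
        refine Finset.sum_congr rfl fun j hj => ?_
        have h4 : ∏ i ∈ Finset.range j, (ζ - α i) = ζ ^ j := by
          rw [Finset.prod_congr rfl fun i hi => by
            rw [hα'' i (Finset.mem_range.2 ((Finset.mem_range.1 hi).trans (Finset.mem_range.1 hj))), sub_zero]]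
          simp
        rw [h4, map_smul, smul_eq_mul]
        simp
        ring
      have h2 := congrArg (fun p => Polynomial.coeff p j) h1
      simp only [Polynomial.finsetSum_coeff, Polynomial.coeff_C_mul_X_pow, Polynomial.coeff_zero] at h2
      rw [Finset.sum_eq_single j] at h2
      · simpa using h2
      · intro i _ hij
        rw [if_neg (Ne.symm hij)]
      · intro h3
        exact absurd hj h3
    rw [Finset.sum_eq_zero (fun i hi => by rw [hα'' i hi, norm_zero]), Finset.sum_eq_zero (fun j hj => by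
      have h3 : ((M + 1 - j : ℕ) : ℝ)⁻¹ ≠ 0 := by
        have := Finset.mem_range.1 hj
        have h4 : 0 < M + 1 - j := by omega
        positivity
      rw [hγ0 j hj, norm_zero, Real.zero_rpow h3])] at hone
    norm_num at hone
  · intro ε hε
    set R : ℝ := max 2 (4 * (M + 1) / ε) with hR
    have hR2 : 2 ≤ R := le_max_left _ _
    have hR0 : 0 < R := by linarith
    have hRε : (M + 1) * (2 / R) ≤ ε / 2 := by
      have h1 : 4 * ((M : ℝ) + 1) / ε ≤ R := le_max_right _ _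
      rw [div_le_iff₀ hε] at h1
      rw [mul_div_assoc', div_le_iff₀ hR0]
      linarith
    obtain ⟨s₀, hs₀, hs₀'⟩ : ∃ s₀, 0 < s₀ ∧ ∀ z ∈ closedBall w s₀, z ∈ ball w r₂ ∧ ‖g z - G w‖ < ε / 4 := by
      have h1 : ∀ᶠ z in 𝓝 w, z ∈ ball w r₂ ∧ ‖g z - G w‖ < ε / 4 := by
        have h0 : ∀ᶠ z in 𝓝 w, z ∈ ball w r₂ := ball_mem_nhds w hr₂0
        refine h0.and ?_
        have h2 : Tendsto (fun z => ‖g z - G w‖) (𝓝 w) (𝓝 0) := by
          have h3 := (hgd.continuousOn.continuousAt (ball_mem_nhds w hr₂0)).tendsto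
          rw [hgw] at h3
          have := (h3.sub_const (G w)).norm
          simpa using this
        exact h2.eventually (gt_mem_nhds (by positivity))
      obtain ⟨s₁, hs₁, hs₁'⟩ := Metric.mem_nhds_iff.1 h1
      exact ⟨s₁ / 2, by positivity, fun z hz => hs₁' (closedBall_subset_ball (by linarith) hz)⟩
    have hSu : ∀ᶠ n in (𝒰 : Filter ℕ), ∀ z ∈ closedBall w s₀, ‖it (F n) (fun i => a i n) (M + 1) z - g z‖ < ε / 4 :=
      hS.unif hgd.continuousOn isOpen_ball (isCompact_closedBall w s₀) (fun z hz => (hs₀' z hz).1) (by positivity)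
    refine ⟨R, min s₀ r, hR0, lt_min hs₀ h.pos, min_le_right _ _, ?_⟩
    filter_upwards [hSu, hqn, hρp] with n h1 h2 h3 z hz hzb
    have hz' : z ∈ closedBall w s₀ := ball_subset_closedBall (ball_subset_ball (min_le_left _ _) hz)
    have hzr : z ∈ ball w r₂ := (hs₀' z hz').1
    have hlow : ∀ i ∈ Finset.range (M + 1), R * ρ n / 2 ≤ ‖z - a i n‖ := by
      intro i hi
      have h4 := hle1 n i hi
      have h5 : ‖z - b n‖ ≤ ‖z - a i n‖ + ‖a i n - b n‖ := by
        have := norm_add_le (z - a i n) (a i n - b n)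
        simpa using this
      nlinarith [mul_le_mul_of_nonneg_right hR2 h3.le]
    have hne : ∀ i ∈ Finset.range (M + 1), z - a i n ≠ 0 := fun i hi h4 => by
      have := hlow i hi
      rw [h4, norm_zero] at this
      nlinarith [mul_pos hR0 h3]
    have hW : ∏ i ∈ Finset.range (M + 1), (z - a i n) ≠ 0 := Finset.prod_ne_zero_iff.2 hne
    refine ⟨(∏ i ∈ Finset.range (M + 1), (z - a i n))⁻¹ * (q n z)⁻¹, mul_ne_zero (inv_ne_zero hW) (inv_ne_zero (h2 z hzr)), ?_⟩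
    have h4 : ((∏ i ∈ Finset.range (M + 1), (z - a i n))⁻¹ * (q n z)⁻¹) • Φ n z = (∏ i ∈ Finset.range (M + 1), (z - a i n))⁻¹ • F n z := by
      rw [mul_smul]
    have h5 := newton (F n) (fun i => a i n) (M + 1) z
    have h6 : (∏ i ∈ Finset.range (M + 1), (z - a i n))⁻¹ • F n z = ∑ j ∈ Finset.range (M + 1),
        ((∏ i ∈ Finset.range (M + 1), (z - a i n))⁻¹ * ∏ i ∈ Finset.range j, (z - a i n)) • c j n +
        it (F n) (fun i => a i n) (M + 1) z := by
      rw [h5, smul_add, Finset.smul_sum, smul_smul, inv_mul_cancel₀ hW, one_smul]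
      congr 1
      exact Finset.sum_congr rfl fun j _ => by rw [smul_smul]
    have h7 : ∀ j ∈ Finset.range (M + 1), ‖((∏ i ∈ Finset.range (M + 1), (z - a i n))⁻¹ * ∏ i ∈ Finset.range j, (z - a i n)) • c j n‖ ≤
        2 / R := by
      intro j hj
      have hj' : j < M + 1 := Finset.mem_range.1 hj
      have h8 : ∏ i ∈ Finset.range (M + 1), (z - a i n) = (∏ i ∈ Finset.range j, (z - a i n)) * ∏ i ∈ Finset.Ico j (M + 1), (z - a i n) :=
        (Finset.prod_range_mul_prod_Ico _ hj'.le).symm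
      have h9 : ∏ i ∈ Finset.range j, (z - a i n) ≠ 0 :=
        Finset.prod_ne_zero_iff.2 fun i hi => hne i (Finset.mem_range.2 ((Finset.mem_range.1 hi).trans hj'))
      have h10 : (∏ i ∈ Finset.range (M + 1), (z - a i n))⁻¹ * ∏ i ∈ Finset.range j, (z - a i n) = (∏ i ∈ Finset.Ico j (M + 1), (z - a i n))⁻¹ := by
        rw [h8, mul_inv, mul_comm, ← mul_assoc, mul_inv_cancel₀ h9, one_mul]
      have h11 : (R * ρ n / 2) ^ (M + 1 - j) ≤ ‖∏ i ∈ Finset.Ico j (M + 1), (z - a i n)‖ := by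
        rw [norm_prod, ← Nat.card_Ico, ← Finset.prod_const]
        refine Finset.prod_le_prod (fun i _ => by positivity) fun i hi => hlow i ?_
        exact Finset.mem_range.2 (Finset.mem_Ico.1 hi).2
      have h12 : ‖c j n‖ ≤ ρ n ^ (M + 1 - j) := by
        have h13 := pow_le_pow_left₀ (Real.rpow_nonneg (norm_nonneg _) _) (hle2 n j hj) (M + 1 - j)
        rwa [hpow _ j hj (norm_nonneg _)] at h13
      have h14 : 0 < (R * ρ n / 2) ^ (M + 1 - j) := by positivity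
      rw [h10, norm_smul, norm_inv]
      calc ‖∏ i ∈ Finset.Ico j (M + 1), (z - a i n)‖⁻¹ * ‖c j n‖ ≤ ((R * ρ n / 2) ^ (M + 1 - j))⁻¹ * ρ n ^ (M + 1 - j) := by gcongr
        _ = (2 / R) ^ (M + 1 - j) := by
          rw [← inv_pow, ← mul_pow]
          congr 1
          field_simp
        _ ≤ (2 / R) ^ 1 := by
          refine pow_le_pow_of_le_one (by positivity) ?_ (by omega)
          rw [div_le_one hR0]
          exact hR2
        _ = 2 / R := pow_one _
    rw [h4, h6]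
    have h15 : ‖∑ j ∈ Finset.range (M + 1), ((∏ i ∈ Finset.range (M + 1), (z - a i n))⁻¹ * ∏ i ∈ Finset.range j, (z - a i n)) • c j n‖ ≤
        (M + 1) * (2 / R) := by
      refine (norm_sum_le_of_le _ h7).trans ?_
      rw [Finset.sum_const, Finset.card_range, nsmul_eq_mul]
      push_cast
      exact le_rfl
    have h16 := h1 z hz'
    have h17 := (hs₀' z hz').2
    set A := ∑ j ∈ Finset.range (M + 1), ((∏ i ∈ Finset.range (M + 1), (z - a i n))⁻¹ * ∏ i ∈ Finset.range j, (z - a i n)) • c j n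
    set B := it (F n) (fun i => a i n) (M + 1) z
    calc ‖A + B - G w‖ = ‖A + (B - g z) + (g z - G w)‖ := by
          congr 1
          abel
      _ ≤ ‖A‖ + ‖B - g z‖ + ‖g z - G w‖ := norm_add₃_le
      _ < ε := by linarith

/-- **The rescaling at a bubble point.** -/
theorem dec [ProperSpace E] {Φ : ℕ → ℂ → E} {w : ℂ} {M : ℕ} {G : ℂ → E} {r : ℝ} (h : Obj 𝒰 Φ w (M + 1) G r) :
    ∃ (b : ℕ → ℂ) (ρ : ℕ → ℝ) (α : ℕ → ℂ) (γ : ℕ → E), Tendsto b 𝒰 (𝓝 w) ∧ (∀ᶠ n in (𝒰 : Filter ℕ), 0 < ρ n) ∧ Tendsto ρ 𝒰 (𝓝 0) ∧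
      CC 𝒰 (fun n ζ => ((ρ n : ℂ) ^ (M + 1))⁻¹ • Φ n (b n + ρ n * ζ))
        (fun ζ => ∑ j ∈ Finset.range (M + 1), (∏ i ∈ Finset.range j, (ζ - α i)) • γ j + (∏ i ∈ Finset.range (M + 1), (ζ - α i)) • G w)
        Set.univ ∧
      ¬ ∃ β : ℂ, ∀ ζ : ℂ, ∑ j ∈ Finset.range (M + 1), (∏ i ∈ Finset.range j, (ζ - α i)) • γ j +
        (∏ i ∈ Finset.range (M + 1), (ζ - α i)) • G w = (ζ - β) ^ (M + 1) • G w := by
  obtain ⟨b, ρ, α, γ, h1, h2, h3, h4, h5, -⟩ := dec_neck h
  exact ⟨b, ρ, α, γ, h1, h2, h3, h4, h5⟩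

end Pool.Agent.H74.NB
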