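import Pool.Agent.UC.Defs
import Pool.Agent.H22.W.Scale

/-!
# NB Null: a nonpositively curved pseudo-length vanishes on the rational curves

`null_rat`: `n (K z) (K' z) = 0` along a rational curve (the square of the length has the sub-mean value property and tends to `0` at infinity).
-/

set_option autoImplicit false

open Topology Filter Metric

namespace Pool.Agent.H74.NB

open Pool.Agent.H36.BP (EN)
open Pool.Agent.H14.PP (IsCone Tan CurveAt)
open Pool.Agent.H22.W (PseudoLength SubMean subMean_curve tan_entire tan_curve)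
open Pool.Agent.UC (RatC)

variable {N : ℕ} {X : Set (EN N)}

/-- a function with the sub-mean value property which tends to zero at infinity -/
theorem nonpos_of_tendsto {u : ℂ → ℝ} (hs : SubMean u) (hu : Continuous u) (h : ∀ ε : ℝ, 0 < ε → ∃ R : ℝ, ∀ z : ℂ, R ≤ ‖z‖ → u z ≤ ε)
    (z : ℂ) : u z ≤ 0 := by
  refine le_of_forall_pos_le_add fun ε hε => ?_
  obtain ⟨R, hR⟩ := h ε hε
  have h1 : 0 < |R| + ‖z‖ + 1 := by positivity
  refine (hs z _ h1).trans ?_
  rw [zero_add]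
  refine Real.circleAverage_mono_on_of_le_circle hu.continuousOn.circleIntegrable' fun y hy => hR y ?_
  rw [abs_of_pos h1, mem_sphere_iff_norm] at hy
  have h2 : ‖y - z‖ ≤ ‖y‖ + ‖z‖ := norm_sub_le _ _
  have h3 := le_abs_self R
  linarith

/-- **A rational curve is null.** -/
theorem null_rat (hX : IsCone X) (n : PseudoLength X) {d : ℕ} {K K' : ℂ → EN N} (h : RatC X d K K') (z : ℂ) :
    n.toFun (K z) (deriv K z) = 0 := by
  -- the length near infinity
  have hinv : ∀ z : ℂ, z ≠ 0 → n.toFun (K z) (deriv K z) = ‖z ^ 2‖⁻¹ * n.toFun (K' z⁻¹) (deriv K' z⁻¹) := by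
    intro z hz
    have e1 : AnalyticAt ℂ (fun y : ℂ => K' y⁻¹) z :=
      (h.diff'.analyticAt (z⁻¹)).fun_comp (analyticAt_id.inv hz)
    have e2 : CurveAt X (fun y : ℂ => K' y⁻¹) z := ⟨e1, Eventually.of_forall fun y => h.mem' _⟩
    have e3 := PseudoLength.lift_eq hX n (F := K) (G := fun y : ℂ => K' y⁻¹) (z := z) ⟨h.diff.analyticAt z, Eventually.of_forall h.mem⟩ e2 (by
      filter_upwards [isOpen_ne.mem_nhds hz] with y hy
      exact ⟨y ^ d, pow_ne_zero _ hy, h.rel y hy⟩)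
    have e4 : HasDerivAt (fun y : ℂ => y⁻¹) (-(z ^ 2)⁻¹) z := hasDerivAt_inv hz
    have e5 : deriv (fun y : ℂ => K' y⁻¹) z = (-(z ^ 2)⁻¹) • deriv K' z⁻¹ :=
      ((h.diff' (z⁻¹)).hasDerivAt.scomp z e4).deriv
    rw [e3, e5, n.smul _ _ (tan_entire h.diff' h.mem' _), norm_neg, norm_inv]
  have hc := n.continuous_curve h.diff h.mem
  have hc' := n.continuous_curve h.diff' h.mem'
  obtain ⟨C, hC⟩ := (isCompact_closedBall (0 : ℂ) 1).exists_bound_of_continuousOn hc'.continuousOn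
  have hC0 : 0 ≤ C := (norm_nonneg _).trans (hC 0 (by simp))
  have h0 := nonpos_of_tendsto (subMean_curve n h.diff h.mem) (hc.pow 2) (fun ε hε => by
    refine ⟨max 1 (C ^ 2 / ε), fun y hy => ?_⟩
    have f1 : 1 ≤ ‖y‖ := (le_max_left _ _).trans hy
    have f2 : C ^ 2 / ε ≤ ‖y‖ := (le_max_right _ _).trans hy
    have f3 : y ≠ 0 := by
      rintro rfl
      rw [norm_zero] at f1
      linarith
    have f4 := hC y⁻¹ (by
      rw [mem_closedBall_zero_iff, norm_inv]
      exact inv_le_one_of_one_le₀ f1)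
    show n.toFun (K y) (deriv K y) ^ 2 ≤ ε
    rw [hinv y f3, mul_pow, norm_pow]
    rw [Real.norm_eq_abs] at f4
    have f5 : n.toFun (K' y⁻¹) (deriv K' y⁻¹) ^ 2 ≤ C ^ 2 := sq_le_sq' (by linarith [neg_abs_le (n.toFun (K' y⁻¹) (deriv K' y⁻¹))])
      (le_trans (le_abs_self _) f4)
    have f6 : C ^ 2 ≤ ε * ‖y‖ := by
      rw [div_le_iff₀ hε] at f2
      linarith
    have f7 : (‖y‖ ^ 2)⁻¹ ^ 2 ≤ ‖y‖⁻¹ := by
      rw [inv_pow, ← pow_mul]
      exact inv_anti₀ (by linarith) (le_self_pow₀ f1 (by norm_num))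
    calc (‖y‖ ^ 2)⁻¹ ^ 2 * n.toFun (K' y⁻¹) (deriv K' y⁻¹) ^ 2 ≤ ‖y‖⁻¹ * (ε * ‖y‖) :=
          mul_le_mul f7 (f5.trans f6) (sq_nonneg _) (by positivity)
      _ = ε := by
          have : ‖y‖ ≠ 0 := by linarith
          field_simp) z
  exact pow_eq_zero_iff (two_ne_zero) |>.1 (le_antisymm h0 (sq_nonneg _))

end Pool.Agent.H74.NB
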